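import Mathlib

/-!
# MP_ae5b4e_an: projective involutions, leaves whose Poncelet maps are translations

Definitions and the closed statements (pieces) of the proof.

Notation of the docstrings: `Λ` is a smooth curve in `ℝ³` with its jets `Λ 0, Λ 1, Λ 2, …`
(`Λ i` is the `i`-th derivative); `A`, `B` are real functions with jets `A 0, A 1, …`.
-/

set_option autoImplicit false

namespace Pool.Agent.H858.CP

open Real
open scoped ContDiff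

/-- determinant of three vectors -/
def det3 (x y z : Fin 3 → ℝ) : ℝ :=
  x 0 * (y 1 * z 2 - y 2 * z 1) - x 1 * (y 0 * z 2 - y 2 * z 0) + x 2 * (y 0 * z 1 - y 1 * z 0)

/-- scalar product -/
def dot (x y : Fin 3 → ℝ) : ℝ := x 0 * y 0 + x 1 * y 1 + x 2 * y 2

/-- `x ↦ (a x, b x)` is a smooth closed curve of positive curvature which stays strictly on the
left of each of its tangent lines (a strictly convex curve, counterclockwise); the parameter `x`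
is arbitrary, its period is normalised to `2π`. -/
structure ConvexCurve (a b : ℝ → ℝ) : Prop where
  smooth₁ : ContDiff ℝ ∞ a
  smooth₂ : ContDiff ℝ ∞ b
  per₁ : ∀ x, a (x + 2 * π) = a x
  per₂ : ∀ x, b (x + 2 * π) = b x
  curvature : ∀ x, 0 < deriv a x * deriv (deriv b) x - deriv b x * deriv (deriv a) x
  convex : ∀ x x', x < x' → x' < x + 2 * π →
    0 < deriv a x * (b x' - b x) - deriv b x * (a x' - a x)

/-- `(x, y)` lies on the tangent line of the curve at the parameter `u`. -/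
def OnTangent (a b : ℝ → ℝ) (u x y : ℝ) : Prop :=
  deriv a u * (y - b u) - deriv b u * (x - a u) = 0

/-- The tangent line at `v` meets the tangent line at `u` in the point
`γ u + coord u v • γ' u`, that is, `coord u v` is the coordinate on the tangent line at `u` (with
origin the point of tangency) of its intersection with the tangent line at `v`. -/
noncomputable def coord (a b : ℝ → ℝ) (u v : ℝ) : ℝ :=
  ((a v - a u) * deriv b v - (b v - b u) * deriv a v) /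
    (deriv a u * deriv b v - deriv b u * deriv a v)

/-- coefficient vector of the tangent line at `u`: the point `(x, y)` is on it iff
`dot (tl a b u) ![x, y, 1] = 0` -/
noncomputable def tl (a b : ℝ → ℝ) (u : ℝ) : Fin 3 → ℝ :=
  ![-deriv b u, deriv a u, a u * deriv b u - b u * deriv a u]

/-- jets of a real function -/
def JetR (f : ℕ → ℝ → ℝ) : Prop := ∀ i t, HasDerivAt (f i) (f (i + 1) t) t

/-- jets of a curve in `ℝ³` -/
def Jet3 (Λ : ℕ → ℝ → Fin 3 → ℝ) : Prop := ∀ i t, HasDerivAt (Λ i) (Λ (i + 1) t) t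

/-- The coefficient of `Λ 1 u` in the expansion of `x` in the basis `Λ 0 u, Λ 1 u, Λ 2 u`. -/
def cA (Λ : ℕ → ℝ → Fin 3 → ℝ) (u : ℝ) (x : Fin 3 → ℝ) : ℝ := det3 (Λ 0 u) x (Λ 2 u)

/-- The coefficient of `Λ 2 u` in the expansion of `x` in the basis `Λ 0 u, Λ 1 u, Λ 2 u`. -/
def cB (Λ : ℕ → ℝ → Fin 3 → ℝ) (u : ℝ) (x : Fin 3 → ℝ) : ℝ := det3 (Λ 0 u) (Λ 1 u) x

/-- The condition on `Λ` at `u` which says that the involution is projective: with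
`A t = cA Λ u (Λ (u + t))` and `B t = cB Λ u (Λ (u + t))`, the function `A/B (t) + A/B (-t)` is
constant near `0`. -/
def Inv (Λ : ℕ → ℝ → Fin 3 → ℝ) (u : ℝ) : Prop :=
  ∃ m ε : ℝ, 0 < ε ∧ ∀ t, 0 < t → t < ε →
    cA Λ u (Λ 0 (u + t)) * cB Λ u (Λ 0 (u - t)) + cA Λ u (Λ 0 (u - t)) * cB Λ u (Λ 0 (u + t)) =
      m * (cB Λ u (Λ 0 (u + t)) * cB Λ u (Λ 0 (u - t)))

/-- The three Taylor relations at `u`; `α k = cA Λ u (Λ k u)`, `β k = cB Λ u (Λ k u)`. -/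
structure Rel (Λ : ℕ → ℝ → Fin 3 → ℝ) (u : ℝ) : Prop where
  r3 : 5 * cA Λ u (Λ 4 u) = 2 * cB Λ u (Λ 5 u)
  r5 : -(cB Λ u (Λ 7 u)) / 5040 - cA Λ u (Λ 3 u) * cB Λ u (Λ 5 u) / 720
    + cA Λ u (Λ 4 u) * cB Λ u (Λ 4 u) / 576 + cA Λ u (Λ 6 u) / 1440 = 0
  r7 : -(cB Λ u (Λ 9 u)) / 362880 - cA Λ u (Λ 3 u) * cB Λ u (Λ 7 u) / 30240
    + cA Λ u (Λ 4 u) * cB Λ u (Λ 6 u) / 17280 - cA Λ u (Λ 5 u) * cB Λ u (Λ 5 u) / 14400
    + cA Λ u (Λ 6 u) * cB Λ u (Λ 4 u) / 17280 + cA Λ u (Λ 8 u) / 80640 = 0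

/-- **Piece T (Taylor).** Let `A`, `B` be jets with `A = t + O(t³)`, `B = t²/2 + O(t⁴)` at `0` and
`A t B(-t) + A(-t) B t = m B t B(-t)` for small `t > 0`. Then the three relations hold.

Proof. `G t = A t B(-t) + A(-t) B t - m B t B(-t)` vanishes for small `|t|` (it is even and
`G 0 = 0`), so all its iterated derivatives at `0` vanish. By the Leibniz rule
(`iteratedDeriv_fun_mul` or jets by hand) and `iteratedDeriv_comp_neg` the `n`-th derivative for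
even `n` is `∑ i, choose n i * (-1)^i * (2 * A i 0 * B (n-i) 0 - m * B i 0 * B (n-i) 0)`. `n = 4`
gives `m = 0`; `n = 6, 8, 10`, divided by `2 * n!`, give the three relations (with `A 0 = 0`,
`A 1 = 1`, `A 2 = 0`, `B 0 = B 1 = 0`, `B 2 = 1`, `B 3 = 0` at `0`). -/
def PieceT : Prop := ∀ (A B : ℕ → ℝ → ℝ), JetR A → JetR B → A 0 0 = 0 → A 1 0 = 1 → A 2 0 = 0 →
  B 0 0 = 0 → B 1 0 = 0 → B 2 0 = 1 → B 3 0 = 0 →
  ∀ m ε : ℝ, 0 < ε → (∀ t, 0 < t → t < ε →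
    A 0 t * B 0 (-t) + A 0 (-t) * B 0 t = m * (B 0 t * B 0 (-t))) →
  5 * A 4 0 = 2 * B 5 0 ∧
  -(B 7 0) / 5040 - A 3 0 * B 5 0 / 720 + A 4 0 * B 4 0 / 576 + A 6 0 / 1440 = 0 ∧
  -(B 9 0) / 362880 - A 3 0 * B 7 0 / 30240 + A 4 0 * B 6 0 / 17280 - A 5 0 * B 5 0 / 14400
    + A 6 0 * B 4 0 / 17280 + A 8 0 / 80640 = 0

/-- **Piece F (frame equation).** `Λ''' = -p Λ' - q Λ` with smooth `p`, `q`.

Proof. The derivative of `det3 (Λ 0) (Λ 1) (Λ 2) = 1` is `det3 (Λ 0) (Λ 1) (Λ 3) = 0`, so by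
Cramer's rule the equation holds with `p = -det3 (Λ 0) (Λ 3) (Λ 2)`,
`q = -det3 (Λ 3) (Λ 1) (Λ 2)`. These are smooth; take `p i = iteratedDeriv i p`. -/
def PieceF : Prop := ∀ Λ : ℕ → ℝ → Fin 3 → ℝ, Jet3 Λ →
  (∀ u, det3 (Λ 0 u) (Λ 1 u) (Λ 2 u) = 1) →
  ∃ p q : ℕ → ℝ → ℝ, JetR p ∧ JetR q ∧ ∀ u i, Λ 3 u i = -(p 0 u) * Λ 1 u i - q 0 u * Λ 0 u i

/-- **Piece R (relations).** The condition `Inv` at `u` gives the relations at `u`.

Proof. Apply `PieceT` to `A i t = cA Λ u (Λ i (u + t))`, `B i t = cB Λ u (Λ i (u + t))`; these are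
linear functions of `Λ i (u + t)`, hence jets. `A 0 0 = det3 Λ0 Λ0 Λ2 = 0`, `A 1 0 = 1`,
`A 2 0 = 0`, `B 0 0 = B 1 0 = 0`, `B 2 0 = 1`, and `B 3 0 = det3 Λ0 Λ1 Λ3 = 0` is the derivative
of the determinant. -/
def PieceR : Prop := PieceT → ∀ Λ : ℕ → ℝ → Fin 3 → ℝ, Jet3 Λ →
  (∀ u, det3 (Λ 0 u) (Λ 1 u) (Λ 2 u) = 1) → ∀ u, Inv Λ u → Rel Λ u

/-- **Piece P3.** The first relation is `p' + 3 q = 0`.

Proof. Differentiating `Λ 3 = -p Λ 1 - q Λ 0` (componentwise, uniqueness of derivatives):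
`Λ 4 = -p Λ 2 - (p' + q) Λ 1 - q' Λ 0`,
`Λ 5 = -(2p' + q) Λ 2 + (p² - p'' - 2q') Λ 1 + (p q - q'') Λ 0`. So `cA (Λ 4) = -(p' + q)` and
`cB (Λ 5) = -(2 p' + q)`, and `r3` is `-5 (p' + q) = -2 (2 p' + q)`. -/
def PieceP3 : Prop := ∀ (Λ : ℕ → ℝ → Fin 3 → ℝ) (p q : ℕ → ℝ → ℝ), Jet3 Λ → JetR p → JetR q →
  (∀ u, det3 (Λ 0 u) (Λ 1 u) (Λ 2 u) = 1) →
  (∀ u i, Λ 3 u i = -(p 0 u) * Λ 1 u i - q 0 u * Λ 0 u i) →
  (∀ u, 5 * cA Λ u (Λ 4 u) = 2 * cB Λ u (Λ 5 u)) → ∀ u, p 1 u + 3 * q 0 u = 0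

/-- **Piece P5.** With `Λ 3 = -p Λ 1 + (p'/3) Λ 0` the second relation is `p''' = - p p' / 4`.

Proof. `Λ k = a Λ 0 + b Λ 1 + c Λ 2` with (a | b | c):
`4: p2/3 | -2/3 p1 | -p0`;
`5: -p0 p1/3 + p3/3 | p0² - p2/3 | -5/3 p1`;
`6: -p0 p2/3 - 8/9 p1² + p4/3 | 10/3 p0 p1 | p0² - 2 p2`;
`7: -p0 p3/3 + p0² p1/3 - 25/9 p1 p2 + p5/3 | 5 p0 p2 - p0³ + 22/9 p1² + p4/3 |
 16/3 p0 p1 - 2 p3` (each is the derivative of the one before), and
`r5` becomes `(p0 p1 + 4 p3)/10080 = 0`. -/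
def PieceP5 : Prop := ∀ (Λ : ℕ → ℝ → Fin 3 → ℝ) (p : ℕ → ℝ → ℝ), Jet3 Λ → JetR p →
  (∀ u, det3 (Λ 0 u) (Λ 1 u) (Λ 2 u) = 1) →
  (∀ u i, Λ 3 u i = -(p 0 u) * Λ 1 u i + p 1 u / 3 * Λ 0 u i) →
  (∀ u, Rel Λ u) → ∀ u, p 3 u = -(p 0 u * p 1 u) / 4

/-- **Piece P7.** With `p''' = - p p' / 4` the third relation is `p' p'' = 0`.

Proof. `Λ k = a Λ 0 + b Λ 1 + c Λ 2` with (a | b | c), using `p3 = - p0 p1 / 4`:
`3: p1/3 | -p0 | 0`; `4: p2/3 | -2/3 p1 | -p0`;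
`5: -5/12 p0 p1 | p0² - p2/3 | -5/3 p1`;
`6: -5/12 p0 p2 - 35/36 p1² | 10/3 p0 p1 | p0² - 2 p2`;
`7: 7/16 p0² p1 - 109/36 p1 p2 | 59/12 p0 p2 - p0³ + 85/36 p1² | 35/6 p0 p1`;
`8: 515/144 p0 p1² + 7/16 p0² p2 - 109/36 p2² | -77/8 p0² p1 + 119/18 p1 p2 |
 43/4 p0 p2 - p0³ + 295/36 p1²`;
`9: (…) | (…) | -245/16 p0² p1 + 135/4 p1 p2`; and `r7` becomes `p1 p2 / 36288 = 0`. -/
def PieceP7 : Prop := ∀ (Λ : ℕ → ℝ → Fin 3 → ℝ) (p : ℕ → ℝ → ℝ), Jet3 Λ → JetR p →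
  (∀ u, det3 (Λ 0 u) (Λ 1 u) (Λ 2 u) = 1) →
  (∀ u i, Λ 3 u i = -(p 0 u) * Λ 1 u i + p 1 u / 3 * Λ 0 u i) →
  (∀ u, p 3 u = -(p 0 u * p 1 u) / 4) →
  (∀ u, Rel Λ u) → ∀ u, p 1 u * p 2 u = 0

/-- **Piece K.** `p''' = - p p' / 4` and `p' p'' = 0` imply that `p` is constant.

Proof. `(p'^2)' = 2 p' p'' = 0`, so `p'^2 = c` is constant. If `c ≠ 0` then `p'` has no zero, so
`p'' = 0` everywhere, hence `p''' = 0`, `p p' = 0`, `p = 0` everywhere and `p' = 0`, a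
contradiction. So `p' = 0`. -/
def PieceK : Prop := ∀ p : ℕ → ℝ → ℝ, JetR p → (∀ u, p 3 u = -(p 0 u * p 1 u) / 4) →
  (∀ u, p 1 u * p 2 u = 0) → ∃ k, ∀ u, p 0 u = k ∧ p 1 u = 0

/-- **Piece G (solutions).** Periodic solutions of `Λ''' = -k Λ'` with unit determinant are
trigonometric.

Proof. Let `E = Λ 2 + k Λ 0`; `E' = 0`, so `E` is constant, and `Λ''' = -k Λ'`. If `k ≤ 0`: each
component `x = Λ 1 · i` is `2π`-periodic with `x'' = -k x`; so `(x x')' = x'^2 - k x^2 ≥ 0` is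
monotone and periodic (`x x'` is periodic), hence constant, so its derivative is `0` and `x' = 0`
(as `-k ≥ 0`), i.e. `Λ 2 = 0`, contradicting the determinant. If `k > 0` put `w = √k`,
`C0 = E / k`; `y = Λ 0 - C0` satisfies `y'' = -w² y`, so `y = C1 cos (w u) + C2 sin (w u)` with
`C1 = y 0`, `C2 = y' 0 / w` (the two functions `y cos(wu) - y' sin(wu)/w` and
`y sin(wu) + y' cos(wu)/w` are constant). The determinant at `u = 0` is
`det3 C0 C1 C2 * w ^ 3 = 1`. -/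
def PieceG : Prop := ∀ (Λ : ℕ → ℝ → Fin 3 → ℝ) (k : ℝ), Jet3 Λ →
  (∀ u, det3 (Λ 0 u) (Λ 1 u) (Λ 2 u) = 1) → (∀ u i, Λ 3 u i = -k * Λ 1 u i) →
  (∀ u, Λ 0 (u + 2 * π) = Λ 0 u) →
  ∃ (w : ℝ) (C0 C1 C2 : Fin 3 → ℝ), 0 < w ∧ det3 C0 C1 C2 * w ^ 3 = 1 ∧
    (∀ u i, Λ 0 u i = C0 i + cos (w * u) * C1 i + sin (w * u) * C2 i)

/-- **Piece L (lift).** The tangent lines of a convex curve have a smooth periodic lift with unit
Wronskian determinant.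

Proof. Let `κ = a' b'' - b' a''` and `L = tl a b`. `det3 L L' L'' = κ ^ 2`. Put
`c = κ ^ (-2/3)` (`Real.rpow`), smooth as `κ > 0` is smooth, and `Λ 0 = c • L`,
`Λ i = iteratedDeriv i (Λ 0)`. The determinant of `(c L, (c L)', (c L)'')` is
`c ^ 3 det3 L L' L'' = 1`. `κ` and `L` are periodic. -/
def PieceL : Prop := ∀ a b : ℝ → ℝ, ConvexCurve a b →
  ∃ (Λ : ℕ → ℝ → Fin 3 → ℝ) (c : ℝ → ℝ), Jet3 Λ ∧
    (∀ u, det3 (Λ 0 u) (Λ 1 u) (Λ 2 u) = 1) ∧ (∀ u, Λ 0 (u + 2 * π) = Λ 0 u) ∧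
    (∀ u, 0 < c u) ∧ (∀ u i, Λ 0 u i = c u * tl a b u i)

/-- **Piece J (involution).** The projectivity of the involution of the tangent line at `u` in
terms of the lift.

Proof. Fix `u`; `g = (a u, b u, 1)` is orthogonal to `Λ 0 u` and to `Λ 1 u` (`dot g (Λ 0 u) = 0`
for all `u`, differentiate and use `dot d (Λ 0 u) = 0`, where `d = (a' u, b' u, 0)`), so
`dot g x = ρ * cB Λ u x` for all `x`, with `ρ = dot g (Λ 2 u) ≠ 0` (as `g ≠ 0`). Also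
`dot d (Λ 0 u) = 0` and `dot d (Λ 1 u) = -dot g (Λ 2 u) = -ρ` (differentiate `dot g (Λ 1) = 0`),
so `dot d x = σ * cB Λ u x - ρ * cA Λ u x` with `σ = dot d (Λ 2 u)`. For `v` with
`0 < |v - u| < 2π`, `N = dot g (tl v) = (a v - a u) b' v - (b v - b u) a' v > 0` by convexity
(`convex v u` or `convex v (u + 2π)`), and `dot d (tl v) = -(a' u b' v - b' u a' v)`. Hence
`1 / coord u v = -dot d (Λ 0 v) / dot g (Λ 0 v) = cA/cB - σ/ρ` (at `x = Λ 0 v`) with `cB ≠ 0`. So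
`cA/cB (Λ 0 (u+t)) + cA/cB (Λ 0 (u-t)) = m + 2 σ / ρ`; multiply by the product of the `cB`. -/
def PieceJ : Prop := ∀ (a b : ℝ → ℝ), ConvexCurve a b →
  ∀ (Λ : ℕ → ℝ → Fin 3 → ℝ) (c : ℝ → ℝ), Jet3 Λ →
    (∀ u, det3 (Λ 0 u) (Λ 1 u) (Λ 2 u) = 1) →
    (∀ u, 0 < c u) → (∀ u i, Λ 0 u i = c u * tl a b u i) →
  ∀ u m ε : ℝ, 0 < ε → (∀ t, 0 < t → t < ε →
    1 / coord a b u (u + t) + 1 / coord a b u (u - t) = m) → Inv Λ u

/-- **Piece W (the end).** If the tangent lines are trigonometric, `w = 1` and the curve is an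
ellipse.

Proof. `g u = (a u, b u, 1)` is orthogonal to `Λ 0 u` and its derivative, where
`Λ 0 u = c u • tl a b u = C0 + cos (w u) C1 + sin (w u) C2`. So with
`X = -dot C1 (g u)`, `Y = -dot C2 (g u)`, `Z = dot C0 (g u)`: `Z = cos (w u) X + sin (w u) Y`
and `0 = -sin (w u) X + cos (w u) Y` (`w > 0`), hence `X = cos (w u) Z`, `Y = sin (w u) Z`,
`Z ≠ 0` (else `g u` is orthogonal to a basis). `Z` is continuous, so of constant sign; if it is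
negative replace `C0, C1, C2` and so `Z` by their negatives... (the sign of `det3` does not
matter). Since `g (u + 2π/w)` satisfies the same equations as `g u`, it is proportional to `g u`,
hence equal (third component), so `w ≤ 1` by `convex` (for `w > 1` the parameter
`u' = u + 2π/w < u + 2π` has the same point), and since `g` is `2π`-periodic `cos (2π w) = 1`,
`w` is an integer, so `w = 1`. The statement about the points on two tangent lines: `(x, y)` on the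
tangent lines at `u` and `u + t` means `ζ = cos u ξ + sin u η` and the same for `u + t`;
solve (`sin t = 2 sin (t/2) cos (t/2)`, `sin (t/2) ≠ 0`). -/
def PieceW : Prop := ∀ (a b : ℝ → ℝ), ConvexCurve a b → ∀ (c : ℝ → ℝ) (w : ℝ)
    (C0 C1 C2 : Fin 3 → ℝ), (∀ u, 0 < c u) → 0 < w → det3 C0 C1 C2 ≠ 0 →
    (∀ u i, c u * tl a b u i = C0 i + cos (w * u) * C1 i + sin (w * u) * C2 i) →
  ∃ ξ η ζ : Fin 3 → ℝ, det3 ξ η ζ ≠ 0 ∧
    (∀ u, 0 < dot ζ ![a u, b u, 1] ∧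
      dot ξ ![a u, b u, 1] = cos u * dot ζ ![a u, b u, 1] ∧
      dot η ![a u, b u, 1] = sin u * dot ζ ![a u, b u, 1]) ∧
    (∀ u t x y : ℝ, 0 < t → t < π → OnTangent a b u x y → OnTangent a b (u + t) x y →
      cos (t / 2) * dot ξ ![x, y, 1] = cos (u + t / 2) * dot ζ ![x, y, 1] ∧
      cos (t / 2) * dot η ![x, y, 1] = sin (u + t / 2) * dot ζ ![x, y, 1])

/-- The main theorem. -/
def Main : Prop := ∀ (a b : ℝ → ℝ), ConvexCurve a b →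
  (∀ u, ∃ m ε : ℝ, 0 < ε ∧ ∀ t, 0 < t → t < ε →
    1 / coord a b u (u + t) + 1 / coord a b u (u - t) = m) →
  ∃ ξ η ζ : Fin 3 → ℝ, det3 ξ η ζ ≠ 0 ∧
    (∀ u, 0 < dot ζ ![a u, b u, 1] ∧
      dot ξ ![a u, b u, 1] = cos u * dot ζ ![a u, b u, 1] ∧
      dot η ![a u, b u, 1] = sin u * dot ζ ![a u, b u, 1]) ∧
    (∀ u t x y : ℝ, 0 < t → t < π → OnTangent a b u x y → OnTangent a b (u + t) x y →
      cos (t / 2) * dot ξ ![x, y, 1] = cos (u + t / 2) * dot ζ ![x, y, 1] ∧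
      cos (t / 2) * dot η ![x, y, 1] = sin (u + t / 2) * dot ζ ![x, y, 1])

/-- Assembly. -/
theorem main_of (hT : PieceT) (hF : PieceF) (hR : PieceR) (h3 : PieceP3) (h5 : PieceP5)
    (h7 : PieceP7) (hK : PieceK) (hG : PieceG) (hL : PieceL) (hJ : PieceJ) (hW : PieceW) :
    Main := by
  intro a b hc hinv
  obtain ⟨Λ, c, hΛ, hdet, hper, hcpos, hΛc⟩ := hL a b hc
  have hI : ∀ u, Inv Λ u := fun u => by
    obtain ⟨m, ε, hε, h⟩ := hinv u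
    exact hJ a b hc Λ c hΛ hdet hcpos hΛc u m ε hε h
  have hrel : ∀ u, Rel Λ u := fun u => hR hT Λ hΛ hdet u (hI u)
  obtain ⟨p, q, hp, hq, hode⟩ := hF Λ hΛ hdet
  have hpq := h3 Λ p q hΛ hp hq hdet hode (fun u => (hrel u).r3)
  have hode' : ∀ u i, Λ 3 u i = -(p 0 u) * Λ 1 u i + p 1 u / 3 * Λ 0 u i := fun u i => by
    rw [hode u i]
    linear_combination (-(Λ 0 u i) / 3) * hpq u
  have hp3 := h5 Λ p hΛ hp hdet hode' hrel
  have hp12 := h7 Λ p hΛ hp hdet hode' hp3 hrel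
  obtain ⟨k, hk⟩ := hK p hp hp3 hp12
  have hode'' : ∀ u i, Λ 3 u i = -k * Λ 1 u i := fun u i => by
    rw [hode' u i, (hk u).1, (hk u).2]
    ring
  obtain ⟨w, C0, C1, C2, hw, hC, hsol⟩ := hG Λ k hΛ hdet hode'' hper
  refine hW a b hc c w C0 C1 C2 hcpos hw (fun h => ?_) fun u i => ?_
  · rw [h] at hC
    simp at hC
  · rw [← hΛc u i, hsol u i]

end Pool.Agent.H858.CP
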