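import Pool.Agent.Run7.h858.CP.Basic

/-!
# Commuting Poncelet maps

`f c` (for `0 ≤ c < c₀`) is the Poncelet map of the leaf with the number `c`: the tangent line at
`x` and the tangent line at `f c x` meet on the leaf. If these maps commute, a change of the
parameter of the curve makes all of them translations.
-/

set_option autoImplicit false

namespace Pool.Agent.H858.CP

open Real Set Filter Topology
open scoped ContDiff

/-- `f c`, `0 ≤ c < c₀`, is a family of commuting circle maps (lifted to the line), which starts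
at the identity with the smooth positive velocity `X`. -/
structure Commuting (f : ℝ → ℝ → ℝ) (c₀ : ℝ) (X : ℝ → ℝ) : Prop where
  pos : 0 < c₀
  zero : ∀ x, f 0 x = x
  above : ∀ c x, 0 < c → c < c₀ → x < f c x
  diff : ∀ c, 0 ≤ c → c < c₀ → Differentiable ℝ (f c)
  comm : ∀ c d x, 0 ≤ c → c < c₀ → 0 ≤ d → d < c₀ → f c (f d x) = f d (f c x)
  cont : ContinuousOn (fun c => f c 0) (Ico 0 c₀)
  velocity : ∀ x, HasDerivWithinAt (fun c => f c x) (X x) (Ici 0) 0
  smooth : ContDiff ℝ ∞ X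
  X_pos : ∀ x, 0 < X x
  X_per : ∀ x, X (x + 2 * π) = X x

variable {f : ℝ → ℝ → ℝ} {c₀ : ℝ} {X : ℝ → ℝ}

/-- the velocity field is invariant -/
theorem Commuting.inv (h : Commuting f c₀ X) {c : ℝ} (h0 : 0 ≤ c) (h1 : c < c₀) (x : ℝ) :
    deriv (f c) x * X x = X (f c x) := by
  have e1 : HasDerivWithinAt (fun d => f c (f d x)) (deriv (f c) x * X x) (Ici 0) 0 := by
    have := (h.diff c h0 h1 (f 0 x)).hasDerivAt.comp_hasDerivWithinAt (0 : ℝ) (h.velocity x)
    rw [h.zero x] at this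
    exact this
  have e2 : HasDerivWithinAt (fun d => f d (f c x)) (X (f c x)) (Ici 0) 0 := h.velocity (f c x)
  have e3 : (fun d => f c (f d x)) =ᶠ[𝓝[Ici 0] 0] fun d => f d (f c x) := by
    have : Iio c₀ ∈ 𝓝[Ici 0] (0 : ℝ) := mem_nhdsWithin_of_mem_nhds (Iio_mem_nhds h.pos)
    filter_upwards [this, self_mem_nhdsWithin] with d hd1 hd2
    exact h.comm c d x h0 h1 hd2 hd1
  have e4 := e2.congr_of_eventuallyEq e3 (by simp only [h.zero])
  exact (uniqueDiffWithinAt_Ici 0).eq_deriv _ e1 e4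

/-- the new parameter, not normalised -/
noncomputable def phi0 (X : ℝ → ℝ) (x : ℝ) : ℝ := ∫ y in (0 : ℝ)..x, 1 / X y

theorem phi0_deriv (hX : ContDiff ℝ ∞ X) (hpos : ∀ x, 0 < X x) (x : ℝ) :
    HasDerivAt (phi0 X) (1 / X x) x := by
  have hc : Continuous fun y => 1 / X y :=
    continuous_const.div hX.continuous fun y => (hpos y).ne'
  exact intervalIntegral.integral_hasDerivAt_right (hc.intervalIntegrable _ _)
    (hc.stronglyMeasurableAtFilter _ _) hc.continuousAt

theorem const_of_deriv {g : ℝ → ℝ} (hg : ∀ x, HasDerivAt g 0 x) (x y : ℝ) : g x = g y :=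
  is_const_of_deriv_eq_zero (fun x => (hg x).differentiableAt) (fun x => (hg x).deriv) x y

theorem phi0_per (hX : ContDiff ℝ ∞ X) (hpos : ∀ x, 0 < X x)
    (hper : ∀ x, X (x + 2 * π) = X x) (x : ℝ) :
    phi0 X (x + 2 * π) = phi0 X x + phi0 X (2 * π) := by
  have h0 : phi0 X 0 = 0 := by simp [phi0]
  have h : ∀ x, HasDerivAt (fun x => phi0 X (x + 2 * π) - phi0 X x) 0 x := fun x => by
    refine (((phi0_deriv hX hpos (x + 2 * π)).comp_add_const x (2 * π)).sub
      (phi0_deriv hX hpos x)).congr_deriv ?_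
    rw [hper]
    ring
  have := const_of_deriv h x 0
  simp only [zero_add, h0, sub_zero] at this
  linarith

theorem phi0_mono (hX : ContDiff ℝ ∞ X) (hpos : ∀ x, 0 < X x) : StrictMono (phi0 X) :=
  strictMono_of_deriv_pos fun x => by
    rw [(phi0_deriv hX hpos x).deriv]
    exact one_div_pos.2 (hpos x)

/-- existence of the normalised parameter with its inverse -/
theorem exists_phi (hX : ContDiff ℝ ∞ X) (hpos : ∀ x, 0 < X x)
    (hper : ∀ x, X (x + 2 * π) = X x) :
    ∃ (k : ℝ) (φ ψ : ℝ → ℝ), 0 < k ∧ (∀ x, HasDerivAt φ (k / X x) x) ∧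
      (∀ x, φ (x + 2 * π) = φ x + 2 * π) ∧ StrictMono φ ∧ StrictMono ψ ∧
      (∀ x, ψ (φ x) = x) ∧ (∀ u, φ (ψ u) = u) ∧ (∀ u, HasDerivAt ψ (X (ψ u) / k) u) ∧
      ContDiff ℝ ∞ φ ∧ ContDiff ℝ ∞ ψ := by
  have hP : 0 < phi0 X (2 * π) := by
    have := phi0_mono hX hpos (show (0 : ℝ) < 2 * π by positivity)
    simpa [phi0] using this
  set k := 2 * π / phi0 X (2 * π) with hk
  have hk0 : 0 < k := by positivity
  have hkP : k * phi0 X (2 * π) = 2 * π := by
    rw [hk]
    field_simp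
  set φ : ℝ → ℝ := fun x => k * phi0 X x with hφ
  have hd : ∀ x, HasDerivAt φ (k / X x) x := fun x =>
    ((phi0_deriv hX hpos x).const_mul k).congr_deriv (by ring)
  have hp : ∀ x, φ (x + 2 * π) = φ x + 2 * π := fun x => by
    simp only [hφ]
    rw [phi0_per hX hpos hper, mul_add, hkP]
  have hm : StrictMono φ := fun x y hxy => mul_lt_mul_of_pos_left (phi0_mono hX hpos hxy) hk0
  have hcont : Continuous φ := continuous_iff_continuousAt.2 fun x => (hd x).continuousAt
  have hn : ∀ n : ℕ, φ (n * (2 * π)) = φ 0 + n * (2 * π) := fun n => by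
    induction n with
    | zero => simp
    | succ n ih =>
      have : ((n + 1 : ℕ) : ℝ) * (2 * π) = n * (2 * π) + 2 * π := by push_cast; ring
      rw [this, hp, ih]
      ring
  have hn' : ∀ n : ℕ, φ (-(n * (2 * π))) = φ 0 - n * (2 * π) := fun n => by
    induction n with
    | zero => simp
    | succ n ih =>
      have h1 := hp (-(((n + 1 : ℕ) : ℝ) * (2 * π)))
      have : -(((n + 1 : ℕ) : ℝ) * (2 * π)) + 2 * π = -(n * (2 * π)) := by push_cast; ring
      rw [this, ih] at h1
      push_cast at h1 ⊢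
      linarith
  have htop : Tendsto φ atTop atTop := by
    refine tendsto_atTop_atTop.2 fun y => ?_
    obtain ⟨n, hn1⟩ := exists_nat_gt ((y - φ 0) / (2 * π))
    refine ⟨n * (2 * π), fun x hx => ?_⟩
    have h1 := hm.monotone hx
    rw [hn n] at h1
    have h2 : y - φ 0 < n * (2 * π) := (div_lt_iff₀ (by positivity)).1 hn1
    linarith
  have hbot : Tendsto φ atBot atBot := by
    refine tendsto_atBot_atBot.2 fun y => ?_
    obtain ⟨n, hn1⟩ := exists_nat_gt ((φ 0 - y) / (2 * π))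
    refine ⟨-(n * (2 * π)), fun x hx => ?_⟩
    have h1 := hm.monotone hx
    rw [hn' n] at h1
    have h2 : φ 0 - y < n * (2 * π) := (div_lt_iff₀ (by positivity)).1 hn1
    linarith
  have hs : Function.Surjective φ := hcont.surjective htop hbot
  set e := StrictMono.orderIsoOfSurjective φ hm hs with he
  have he1 : ∀ x, e x = φ x := fun x => rfl
  set ψ : ℝ → ℝ := fun u => e.symm u with hψ
  have l1 : ∀ x, ψ (φ x) = x := fun x => by
    simp only [hψ]
    rw [← he1]
    exact e.symm_apply_apply x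
  have l2 : ∀ u, φ (ψ u) = u := fun u => by
    simp only [hψ]
    rw [← he1]
    exact e.apply_symm_apply u
  have hψc : Continuous ψ := e.symm.continuous
  have hψd : ∀ u, HasDerivAt ψ (X (ψ u) / k) u := fun u => by
    have h1 := HasDerivAt.of_local_left_inverse (f := φ) (g := ψ) (a := u) hψc.continuousAt
      (hd (ψ u)) (div_pos hk0 (hpos _)).ne' (Eventually.of_forall l2)
    rwa [inv_div] at h1
  have hφs : ContDiff ℝ ∞ φ := by
    rw [contDiff_infty_iff_deriv]
    refine ⟨fun x => (hd x).differentiableAt, ?_⟩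
    rw [show deriv φ = fun x => k / X x from funext fun x => (hd x).deriv]
    exact contDiff_const.div hX fun x => (hpos x).ne'
  have hψs : ContDiff ℝ ∞ ψ := by
    rw [contDiff_infty]
    intro n
    induction n with
    | zero => exact contDiff_zero.2 hψc
    | succ n ih =>
      rw [show ((n + 1 : ℕ) : WithTop ℕ∞) = (n : WithTop ℕ∞) + 1 by push_cast; rfl,
        contDiff_succ_iff_deriv]
      refine ⟨fun u => (hψd u).differentiableAt, by simp, ?_⟩
      rw [show deriv ψ = fun u => X (ψ u) / k from funext fun u => (hψd u).deriv]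
      exact ((hX.of_le (by exact_mod_cast le_top)).comp ih).div_const k
  exact ⟨k, φ, ψ, hk0, hd, hp, hm, e.symm.strictMono, l1, l2, hψd, hφs, hψs⟩

/-- the Poncelet maps are translations in the new parameter -/
theorem Commuting.trans (h : Commuting f c₀ X) {k : ℝ} {φ : ℝ → ℝ}
    (hd : ∀ x, HasDerivAt φ (k / X x) x) {c : ℝ} (h0 : 0 ≤ c) (h1 : c < c₀) (x : ℝ) :
    φ (f c x) - φ x = φ (f c 0) - φ 0 := by
  have : ∀ x, HasDerivAt (fun x => φ (f c x) - φ x) 0 x := fun x => by
    refine (((hd (f c x)).comp x (h.diff c h0 h1 x).hasDerivAt).sub (hd x)).congr_deriv ?_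
    rw [← h.inv h0 h1 x]
    have hx := (h.X_pos x).ne'
    have hfx := (h.X_pos (f c x)).ne'
    rw [← h.inv h0 h1 x] at hfx
    have hdx : deriv (f c) x ≠ 0 := fun h2 => hfx (by rw [h2, zero_mul])
    field_simp
    ring
  exact const_of_deriv this x 0

section curve

variable {a b ψ s : ℝ → ℝ}

theorem deriv_comp_psi {g : ℝ → ℝ} (hg : ContDiff ℝ ∞ g) (hs : ∀ u, HasDerivAt ψ (s u) u) (u : ℝ) :
    HasDerivAt (fun u => g (ψ u)) (deriv g (ψ u) * s u) u :=
  ((hg.differentiable (by simp) (ψ u)).hasDerivAt).comp u (hs u)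

theorem contDiff_deriv_inf {g : ℝ → ℝ} (hg : ContDiff ℝ ∞ g) : ContDiff ℝ ∞ (deriv g) :=
  (contDiff_infty_iff_deriv.1 hg).2

/-- the reparametrised curve is a convex curve -/
theorem ConvexCurve.comp (h : ConvexCurve a b) (hψ : ContDiff ℝ ∞ ψ) (hψm : StrictMono ψ)
    (hper : ∀ u, ψ (u + 2 * π) = ψ u + 2 * π) (hs : ∀ u, HasDerivAt ψ (s u) u)
    (hspos : ∀ u, 0 < s u) (hsd : Differentiable ℝ s) :
    ConvexCurve (fun u => a (ψ u)) (fun u => b (ψ u)) := by
  have da : deriv (fun u => a (ψ u)) = fun u => deriv a (ψ u) * s u :=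
    funext fun u => (deriv_comp_psi h.smooth₁ hs u).deriv
  have db : deriv (fun u => b (ψ u)) = fun u => deriv b (ψ u) * s u :=
    funext fun u => (deriv_comp_psi h.smooth₂ hs u).deriv
  refine ⟨h.smooth₁.comp hψ, h.smooth₂.comp hψ, fun u => by rw [hper, h.per₁],
    fun u => by rw [hper, h.per₂], fun u => ?_, fun u u' h1 h2 => ?_⟩
  · rw [da, db]
    have d2a : HasDerivAt (fun u => deriv a (ψ u) * s u)
        ((deriv (deriv a) (ψ u) * s u) * s u + deriv a (ψ u) * deriv s u) u :=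
      (deriv_comp_psi (contDiff_deriv_inf h.smooth₁) hs u).mul (hsd u).hasDerivAt
    have d2b : HasDerivAt (fun u => deriv b (ψ u) * s u)
        ((deriv (deriv b) (ψ u) * s u) * s u + deriv b (ψ u) * deriv s u) u :=
      (deriv_comp_psi (contDiff_deriv_inf h.smooth₂) hs u).mul (hsd u).hasDerivAt
    rw [d2a.deriv, d2b.deriv]
    have := mul_pos (pow_pos (hspos u) 3) (h.curvature (ψ u))
    calc (0 : ℝ) < s u ^ 3 * (deriv a (ψ u) * deriv (deriv b) (ψ u)
          - deriv b (ψ u) * deriv (deriv a) (ψ u)) := this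
      _ = _ := by ring
  · rw [da, db]
    have h3 := h.convex (ψ u) (ψ u') (hψm h1) (by rw [← hper]; exact hψm h2)
    have := mul_pos (hspos u) h3
    calc (0 : ℝ) < s u * (deriv a (ψ u) * (b (ψ u') - b (ψ u))
          - deriv b (ψ u) * (a (ψ u') - a (ψ u))) := this
      _ = _ := by ring

theorem coord_comp (h : ConvexCurve a b) (hs : ∀ u, HasDerivAt ψ (s u) u)
    (hspos : ∀ u, 0 < s u) (u v : ℝ) :
    1 / coord (fun u => a (ψ u)) (fun u => b (ψ u)) u v = s u * (1 / coord a b (ψ u) (ψ v)) := by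
  have da : deriv (fun u => a (ψ u)) = fun u => deriv a (ψ u) * s u :=
    funext fun u => (deriv_comp_psi h.smooth₁ hs u).deriv
  have db : deriv (fun u => b (ψ u)) = fun u => deriv b (ψ u) * s u :=
    funext fun u => (deriv_comp_psi h.smooth₂ hs u).deriv
  unfold coord
  rw [da, db]
  simp only [one_div_div]
  have hu := (hspos u).ne'
  have hv := (hspos v).ne'
  rw [show (a (ψ v) - a (ψ u)) * (deriv b (ψ v) * s v) - (b (ψ v) - b (ψ u)) *
      (deriv a (ψ v) * s v) = s v * ((a (ψ v) - a (ψ u)) * deriv b (ψ v)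
      - (b (ψ v) - b (ψ u)) * deriv a (ψ v)) by ring,
    show deriv a (ψ u) * s u * (deriv b (ψ v) * s v) - deriv b (ψ u) * s u *
      (deriv a (ψ v) * s v) = s v * (s u * (deriv a (ψ u) * deriv b (ψ v)
      - deriv b (ψ u) * deriv a (ψ v))) by ring, mul_div_mul_left _ _ hv, mul_div_assoc]

end curve

/-- All the involutions of the tangent lines which exchange the two points of the leaves are
projective: on the tangent line at `x` (coordinate `coord`, origin the point of tangency) the leaf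
with the number `c` has the points `coord x (f c x)` and `coord x y`, where `f c y = x`; an
involution which exchanges such pairs and fixes `0` is projective iff `1 / s + 1 / σ s` is
constant. -/
def ProjectiveInvolutions (a b : ℝ → ℝ) (f : ℝ → ℝ → ℝ) (c₀ : ℝ) : Prop :=
  ∀ x, ∃ m ε : ℝ, 0 < ε ∧ ∀ c y, 0 < c → c < ε → c < c₀ → f c y = x →
    1 / coord a b x (f c x) + 1 / coord a b x y = m

/-- The theorem for commuting Poncelet maps. -/
theorem commuting_of_main (hM : Main) (a b : ℝ → ℝ) (hc : ConvexCurve a b) (f : ℝ → ℝ → ℝ)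
    (c₀ : ℝ) (X : ℝ → ℝ) (hf : Commuting f c₀ X) (hinv : ProjectiveInvolutions a b f c₀) :
    ∃ (φ τ : ℝ → ℝ) (ξ η ζ : Fin 3 → ℝ), ContDiff ℝ ∞ φ ∧ (∀ x, 0 < deriv φ x) ∧
      (∀ x, φ (x + 2 * π) = φ x + 2 * π) ∧
      (∀ c x, 0 ≤ c → c < c₀ → φ (f c x) = φ x + τ c) ∧
      ContinuousOn τ (Ico 0 c₀) ∧ τ 0 = 0 ∧ (∀ c, 0 < c → c < c₀ → 0 < τ c) ∧
      det3 ξ η ζ ≠ 0 ∧
      (∀ x, 0 < dot ζ ![a x, b x, 1] ∧
        dot ξ ![a x, b x, 1] = cos (φ x) * dot ζ ![a x, b x, 1] ∧
        dot η ![a x, b x, 1] = sin (φ x) * dot ζ ![a x, b x, 1]) ∧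
      (∀ c x p q : ℝ, 0 < c → c < c₀ → τ c < π → OnTangent a b x p q →
        OnTangent a b (f c x) p q →
        cos (τ c / 2) * dot ξ ![p, q, 1] = cos (φ x + τ c / 2) * dot ζ ![p, q, 1] ∧
        cos (τ c / 2) * dot η ![p, q, 1] = sin (φ x + τ c / 2) * dot ζ ![p, q, 1]) := by
  obtain ⟨k, φ, ψ, hk, hd, hp, hm, hψm, l1, l2, hψd, hφs, hψs⟩ :=
    exists_phi hf.smooth hf.X_pos hf.X_per
  set s : ℝ → ℝ := fun u => X (ψ u) / k with hs
  have hspos : ∀ u, 0 < s u := fun u => div_pos (hf.X_pos _) hk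
  have hsd : Differentiable ℝ s := ((hf.smooth.comp hψs).div_const k).differentiable (by simp)
  have hψp : ∀ u, ψ (u + 2 * π) = ψ u + 2 * π := fun u => by
    rw [← l1 (ψ u + 2 * π), hp, l2]
  have hc' := hc.comp hψs hψm hψp hψd hspos hsd
  set τ : ℝ → ℝ := fun c => φ (f c 0) - φ 0 with hτ
  have htr : ∀ c x, 0 ≤ c → c < c₀ → φ (f c x) = φ x + τ c := fun c x h0 h1 => by
    have := hf.trans hd h0 h1 x
    simp only [hτ]
    linarith
  have hτc : ContinuousOn τ (Ico 0 c₀) :=
    (hφs.continuous.comp_continuousOn hf.cont).sub continuousOn_const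
  have hτ0 : τ 0 = 0 := by simp only [hτ, hf.zero]; ring
  have hτpos : ∀ c, 0 < c → c < c₀ → 0 < τ c := fun c h0 h1 => by
    have := hm (hf.above c 0 h0 h1)
    simp only [hτ]
    linarith
  obtain ⟨ξ, η, ζ, hdet, h1, h2⟩ := hM _ _ hc' (fun u => by
    obtain ⟨m, ε, hε, h⟩ := hinv (ψ u)
    set c1 := min ε c₀ / 2 with hc1
    have c1pos : 0 < c1 := by have := lt_min hε hf.pos; positivity
    have c1a : c1 < ε := by
      have := min_le_left ε c₀
      have := lt_min hε hf.pos
      simp only [hc1]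
      linarith
    have c1b : c1 < c₀ := by
      have := min_le_right ε c₀
      have := lt_min hε hf.pos
      simp only [hc1]
      linarith
    refine ⟨s u * m, τ c1, hτpos c1 c1pos c1b, fun t ht0 ht1 => ?_⟩
    have hsub : Icc 0 c1 ⊆ Ico 0 c₀ := fun z hz => ⟨hz.1, lt_of_le_of_lt hz.2 c1b⟩
    obtain ⟨c, hcI, hct⟩ := intermediate_value_Icc c1pos.le (hτc.mono hsub)
      (show t ∈ Icc (τ 0) (τ c1) by rw [hτ0]; exact ⟨ht0.le, ht1.le⟩)
    have hcpos : 0 < c := by
      rcases hcI.1.lt_or_eq with h3 | h3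
      · exact h3
      · rw [← h3, hτ0] at hct
        exact absurd hct ht0.ne
    have hcc0 : c < c₀ := lt_of_le_of_lt hcI.2 c1b
    have e1 : f c (ψ u) = ψ (u + t) := by
      rw [← l1 (f c (ψ u)), htr c _ hcpos.le hcc0, l2, hct]
    have e2 : f c (ψ (u - t)) = ψ u := by
      rw [← l1 (f c (ψ (u - t))), htr c _ hcpos.le hcc0, l2, hct, sub_add_cancel]
    have h3 := h c (ψ (u - t)) hcpos (lt_of_le_of_lt hcI.2 c1a) hcc0 e2
    rw [e1] at h3
    rw [coord_comp hc hψd hspos, coord_comp hc hψd hspos, ← mul_add, h3])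
  refine ⟨φ, τ, ξ, η, ζ, hφs, fun x => by rw [(hd x).deriv]; exact div_pos hk (hf.X_pos x), hp,
    htr, hτc, hτ0, hτpos, hdet, fun x => ?_, fun c x p q hc0 hc1 hcπ ht1 ht2 => ?_⟩
  · have := h1 (φ x)
    simp only [l1] at this
    exact this
  · have key : ∀ x, OnTangent a b x p q →
        OnTangent (fun u => a (ψ u)) (fun u => b (ψ u)) (φ x) p q := fun x hx => by
      have da : deriv (fun u => a (ψ u)) = fun u => deriv a (ψ u) * s u :=
        funext fun u => (deriv_comp_psi hc.smooth₁ hψd u).deriv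
      have db : deriv (fun u => b (ψ u)) = fun u => deriv b (ψ u) * s u :=
        funext fun u => (deriv_comp_psi hc.smooth₂ hψd u).deriv
      unfold OnTangent at hx ⊢
      rw [da, db]
      simp only [l1]
      linear_combination s (φ x) * hx
    have h3 := key x ht1
    have h4 := key (f c x) ht2
    rw [htr c x hc0.le hc1] at h4
    exact h2 (φ x) (τ c) p q (hτpos c hc0 hc1) hcπ h3 h4

end Pool.Agent.H858.CP
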