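import Pool.Agent.Run7.h858.CP.Step

set_option autoImplicit false

namespace Pool.Agent.H858.CP

theorem pieceP3 : PieceP3 := by
  intro Λ p q hΛ hp hq hdet hode hrel u
  have X4 : ∀ (u : ℝ) (i : Fin 3), Λ 4 u i = -(q 1 u) * Λ 0 u i + -(p 1 u + q 0 u) * Λ 1 u i
      + -(p 0 u) * Λ 2 u i := by
    intro u i
    have hX : JetR (fun k t => Λ k t i) := fun k t => jet3_coord hΛ i k t
    have := step (X := fun k t => Λ k t i) hX (p := p 0) (q := q 0) (fun u => hode u i) (k := 3)
      (a := fun u => -(q 0 u)) (b := fun u => -(p 0 u)) (c := fun _ => 0)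
      (fun u => by rw [hode u i]; ring) (hq 0 u).fun_neg (hp 0 u).fun_neg
      (hasDerivAt_const u (0 : ℝ))
    simp only [zero_add] at this
    rw [this]
    ring
  have X5 : ∀ (u : ℝ) (i : Fin 3), Λ 5 u i = (p 0 u * q 0 u - q 2 u) * Λ 0 u i
      + (p 0 u ^ 2 - p 2 u - 2 * q 1 u) * Λ 1 u i + -(2 * p 1 u + q 0 u) * Λ 2 u i := by
    intro u i
    have hX : JetR (fun k t => Λ k t i) := fun k t => jet3_coord hΛ i k t
    have := step (X := fun k t => Λ k t i) hX (p := p 0) (q := q 0) (fun u => hode u i) (k := 4)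
      (a := fun u => -(q 1 u)) (b := fun u => -(p 1 u + q 0 u)) (c := fun u => -(p 0 u))
      (fun u => X4 u i) (hq 1 u).fun_neg ((hp 1 u).fun_add (hq 0 u)).fun_neg (hp 0 u).fun_neg
    rw [this]
    ring
  have h := hrel u
  rw [cA_comb (hdet u) (X4 u), cB_comb (hdet u) (X5 u)] at h
  linarith

end Pool.Agent.H858.CP
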