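import Pool.Agent.Run7.h858.CP.Step

set_option autoImplicit false

namespace Pool.Agent.H858.CP

/-- the derivatives in the frame, for `X''' = -p X' + (p'/3) X` -/
theorem chain5 {X p : ℕ → ℝ → ℝ} (hX : JetR X) (hp : JetR p)
    (h3 : ∀ u, X 3 u = -(p 0 u) * X 1 u + p 1 u / 3 * X 0 u) :
    (∀ u, X 3 u = ((1 / 3 : ℝ) * (p 1 u)) * X 0 u + ((-1 : ℝ) * (p 0 u)) * X 1 u + (0) * X 2 u) ∧
    (∀ u, X 4 u = ((1 / 3 : ℝ) * (p 2 u)) * X 0 u + ((-2 / 3 : ℝ) * (p 1 u)) * X 1 u + ((-1 : ℝ) * (p 0 u)) * X 2 u) ∧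
    (∀ u, X 5 u = ((-1 / 3 : ℝ) * (p 0 u * p 1 u) + (1 / 3 : ℝ) * (p 3 u)) * X 0 u + ((1 : ℝ) * ((p 0 u) ^ 2) + (-1 / 3 : ℝ) * (p 2 u)) * X 1 u + ((-5 / 3 : ℝ) * (p 1 u)) * X 2 u) ∧
    (∀ u, X 6 u = ((-1 / 3 : ℝ) * (p 0 u * p 2 u) + (-8 / 9 : ℝ) * ((p 1 u) ^ 2) + (1 / 3 : ℝ) * (p 4 u)) * X 0 u + ((10 / 3 : ℝ) * (p 0 u * p 1 u)) * X 1 u + ((1 : ℝ) * ((p 0 u) ^ 2) + (-2 : ℝ) * (p 2 u)) * X 2 u) ∧
    (∀ u, X 7 u = ((-1 / 3 : ℝ) * (p 0 u * p 3 u) + (1 / 3 : ℝ) * ((p 0 u) ^ 2 * p 1 u) + (-25 / 9 : ℝ) * (p 1 u * p 2 u) + (1 / 3 : ℝ) * (p 5 u)) * X 0 u + ((5 : ℝ) * (p 0 u * p 2 u) + (-1 : ℝ) * ((p 0 u) ^ 3) + (22 / 9 : ℝ) * ((p 1 u) ^ 2) + (1 / 3 : ℝ) * (p 4 u)) * X 1 u + ((16 / 3 : ℝ) * (p 0 u * p 1 u) + (-2 : ℝ) * (p 3 u)) * X 2 u) := by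
  have h3' : ∀ u, X 3 u = -(p 0 u) * X 1 u - (fun u => -(p 1 u) / 3) u * X 0 u := fun u => by
    rw [h3 u]
    ring
  have e3 : ∀ u, X 3 u = ((1 / 3 : ℝ) * (p 1 u)) * X 0 u + ((-1 : ℝ) * (p 0 u)) * X 1 u +
      (0) * X 2 u := by
    intro u
    rw [h3 u]
    ring
  have e4 : ∀ u, X 4 u = ((1 / 3 : ℝ) * (p 2 u)) * X 0 u + ((-2 / 3 : ℝ) * (p 1 u)) * X 1 u +
      ((-1 : ℝ) * (p 0 u)) * X 2 u := by
    intro u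
    have := step hX h3' e3 (u := u)
      ((hp 1 u).const_mul (1 / 3 : ℝ))
      ((hp 0 u).const_mul (-1 : ℝ))
      (hasDerivAt_const u (0 : ℝ))
    rw [this]
    push_cast
    ring
  have e5 : ∀ u, X 5 u = ((-1 / 3 : ℝ) * (p 0 u * p 1 u) + (1 / 3 : ℝ) * (p 3 u)) * X 0 u + ((1 : ℝ) * ((p 0 u) ^ 2) + (-1 / 3 : ℝ) * (p 2 u)) * X 1 u +
      ((-5 / 3 : ℝ) * (p 1 u)) * X 2 u := by
    intro u
    have := step hX h3' e4 (u := u)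
      ((hp 2 u).const_mul (1 / 3 : ℝ))
      ((hp 1 u).const_mul (-2 / 3 : ℝ))
      ((hp 0 u).const_mul (-1 : ℝ))
    rw [this]
    push_cast
    ring
  have e6 : ∀ u, X 6 u = ((-1 / 3 : ℝ) * (p 0 u * p 2 u) + (-8 / 9 : ℝ) * ((p 1 u) ^ 2) + (1 / 3 : ℝ) * (p 4 u)) * X 0 u + ((10 / 3 : ℝ) * (p 0 u * p 1 u)) * X 1 u +
      ((1 : ℝ) * ((p 0 u) ^ 2) + (-2 : ℝ) * (p 2 u)) * X 2 u := by
    intro u
    have := step hX h3' e5 (u := u)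
      ((((hp 0 u).fun_mul (hp 1 u)).const_mul (-1 / 3 : ℝ)).fun_add ((hp 3 u).const_mul (1 / 3 : ℝ)))
      ((((hp 0 u).fun_pow 2).const_mul (1 : ℝ)).fun_add ((hp 2 u).const_mul (-1 / 3 : ℝ)))
      ((hp 1 u).const_mul (-5 / 3 : ℝ))
    rw [this]
    push_cast
    ring
  have e7 : ∀ u, X 7 u = ((-1 / 3 : ℝ) * (p 0 u * p 3 u) + (1 / 3 : ℝ) * ((p 0 u) ^ 2 * p 1 u) + (-25 / 9 : ℝ) * (p 1 u * p 2 u) + (1 / 3 : ℝ) * (p 5 u)) * X 0 u + ((5 : ℝ) * (p 0 u * p 2 u) + (-1 : ℝ) * ((p 0 u) ^ 3) + (22 / 9 : ℝ) * ((p 1 u) ^ 2) + (1 / 3 : ℝ) * (p 4 u)) * X 1 u +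
      ((16 / 3 : ℝ) * (p 0 u * p 1 u) + (-2 : ℝ) * (p 3 u)) * X 2 u := by
    intro u
    have := step hX h3' e6 (u := u)
      (((((hp 0 u).fun_mul (hp 2 u)).const_mul (-1 / 3 : ℝ)).fun_add (((hp 1 u).fun_pow 2).const_mul (-8 / 9 : ℝ))).fun_add ((hp 4 u).const_mul (1 / 3 : ℝ)))
      (((hp 0 u).fun_mul (hp 1 u)).const_mul (10 / 3 : ℝ))
      ((((hp 0 u).fun_pow 2).const_mul (1 : ℝ)).fun_add ((hp 2 u).const_mul (-2 : ℝ)))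
    rw [this]
    push_cast
    ring
  exact ⟨e3, e4, e5, e6, e7⟩

theorem pieceP5 : PieceP5 := by
  intro Λ p hΛ hp hdet hode hrel u
  have hc := fun i : Fin 3 => chain5 (X := fun k t => Λ k t i) (p := p)
    (fun k t => jet3_coord hΛ i k t) hp (fun u => hode u i)
  have h := (hrel u).r5
  rw [cA_comb (hdet u) (fun i => (hc i).1 u), cA_comb (hdet u) (fun i => (hc i).2.1 u),
    cA_comb (hdet u) (fun i => (hc i).2.2.2.1 u),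
    cB_comb (hdet u) (fun i => (hc i).2.1 u), cB_comb (hdet u) (fun i => (hc i).2.2.1 u),
    cB_comb (hdet u) (fun i => (hc i).2.2.2.2 u)] at h
  linarith

end Pool.Agent.H858.CP
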