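import Pool.Agent.Run7.h858.CP.Step

set_option autoImplicit false

namespace Pool.Agent.H858.CP

/-- the derivatives in the frame, for `X''' = -p X' + (p'/3) X` and `p''' = - p p' / 4` -/
theorem chain7 {X p : ℕ → ℝ → ℝ} (hX : JetR X) (hp : JetR p)
    (h3 : ∀ u, X 3 u = -(p 0 u) * X 1 u + p 1 u / 3 * X 0 u)
    (hp3 : ∀ u, p 3 u = -(p 0 u * p 1 u) / 4) :
    (∀ u, X 3 u = ((1 / 3 : ℝ) * (p 1 u)) * X 0 u + ((-1 : ℝ) * (p 0 u)) * X 1 u + (0) * X 2 u) ∧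
    (∀ u, X 4 u = ((1 / 3 : ℝ) * (p 2 u)) * X 0 u + ((-2 / 3 : ℝ) * (p 1 u)) * X 1 u + ((-1 : ℝ) * (p 0 u)) * X 2 u) ∧
    (∀ u, X 5 u = ((-5 / 12 : ℝ) * (p 0 u * p 1 u)) * X 0 u + ((1 : ℝ) * ((p 0 u) ^ 2) + (-1 / 3 : ℝ) * (p 2 u)) * X 1 u + ((-5 / 3 : ℝ) * (p 1 u)) * X 2 u) ∧
    (∀ u, X 6 u = ((-5 / 12 : ℝ) * (p 0 u * p 2 u) + (-35 / 36 : ℝ) * ((p 1 u) ^ 2)) * X 0 u + ((10 / 3 : ℝ) * (p 0 u * p 1 u)) * X 1 u + ((1 : ℝ) * ((p 0 u) ^ 2) + (-2 : ℝ) * (p 2 u)) * X 2 u) ∧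
    (∀ u, X 7 u = ((7 / 16 : ℝ) * ((p 0 u) ^ 2 * p 1 u) + (-109 / 36 : ℝ) * (p 1 u * p 2 u)) * X 0 u + ((59 / 12 : ℝ) * (p 0 u * p 2 u) + (-1 : ℝ) * ((p 0 u) ^ 3) + (85 / 36 : ℝ) * ((p 1 u) ^ 2)) * X 1 u + ((35 / 6 : ℝ) * (p 0 u * p 1 u)) * X 2 u) ∧
    (∀ u, X 8 u = ((515 / 144 : ℝ) * (p 0 u * (p 1 u) ^ 2) + (7 / 16 : ℝ) * ((p 0 u) ^ 2 * p 2 u) + (-109 / 36 : ℝ) * ((p 2 u) ^ 2)) * X 0 u + ((-77 / 8 : ℝ) * ((p 0 u) ^ 2 * p 1 u) + (119 / 18 : ℝ) * (p 1 u * p 2 u)) * X 1 u + ((43 / 4 : ℝ) * (p 0 u * p 2 u) + (-1 : ℝ) * ((p 0 u) ^ 3) + (295 / 36 : ℝ) * ((p 1 u) ^ 2)) * X 2 u) ∧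
    (∀ u, X 9 u = ((105 / 8 : ℝ) * (p 0 u * p 1 u * p 2 u) + (-85 / 192 : ℝ) * ((p 0 u) ^ 3 * p 1 u) + (2725 / 432 : ℝ) * ((p 1 u) ^ 3)) * X 0 u + ((-1225 / 48 : ℝ) * (p 0 u * (p 1 u) ^ 2) + (-319 / 16 : ℝ) * ((p 0 u) ^ 2 * p 2 u) + (1 : ℝ) * ((p 0 u) ^ 4) + (43 / 12 : ℝ) * ((p 2 u) ^ 2)) * X 1 u + ((-245 / 16 : ℝ) * ((p 0 u) ^ 2 * p 1 u) + (135 / 4 : ℝ) * (p 1 u * p 2 u)) * X 2 u) := by
  have h3' : ∀ u, X 3 u = -(p 0 u) * X 1 u - (fun u => -(p 1 u) / 3) u * X 0 u := fun u => by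
    rw [h3 u]
    ring
  have e3 : ∀ u, X 3 u = ((1 / 3 : ℝ) * (p 1 u)) * X 0 u + ((-1 : ℝ) * (p 0 u)) * X 1 u +
      (0) * X 2 u := by
    intro u
    rw [h3 u]
    ring
  have e4 : ∀ u, X 4 u = ((1 / 3 : ℝ) * (p 2 u)) * X 0 u + ((-2 / 3 : ℝ) * (p 1 u)) * X 1 u +
      ((-1 : ℝ) * (p 0 u)) * X 2 u := by
    intro u
    have := step hX h3' e3 (u := u)
      ((hp 1 u).const_mul (1 / 3 : ℝ))
      ((hp 0 u).const_mul (-1 : ℝ))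
      (hasDerivAt_const u (0 : ℝ))
    rw [this]
    try simp only [hp3 u]
    push_cast
    ring
  have e5 : ∀ u, X 5 u = ((-5 / 12 : ℝ) * (p 0 u * p 1 u)) * X 0 u + ((1 : ℝ) * ((p 0 u) ^ 2) + (-1 / 3 : ℝ) * (p 2 u)) * X 1 u +
      ((-5 / 3 : ℝ) * (p 1 u)) * X 2 u := by
    intro u
    have := step hX h3' e4 (u := u)
      ((hp 2 u).const_mul (1 / 3 : ℝ))
      ((hp 1 u).const_mul (-2 / 3 : ℝ))
      ((hp 0 u).const_mul (-1 : ℝ))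
    rw [this]
    try simp only [hp3 u]
    push_cast
    ring
  have e6 : ∀ u, X 6 u = ((-5 / 12 : ℝ) * (p 0 u * p 2 u) + (-35 / 36 : ℝ) * ((p 1 u) ^ 2)) * X 0 u + ((10 / 3 : ℝ) * (p 0 u * p 1 u)) * X 1 u +
      ((1 : ℝ) * ((p 0 u) ^ 2) + (-2 : ℝ) * (p 2 u)) * X 2 u := by
    intro u
    have := step hX h3' e5 (u := u)
      (((hp 0 u).fun_mul (hp 1 u)).const_mul (-5 / 12 : ℝ))
      ((((hp 0 u).fun_pow 2).const_mul (1 : ℝ)).fun_add ((hp 2 u).const_mul (-1 / 3 : ℝ)))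
      ((hp 1 u).const_mul (-5 / 3 : ℝ))
    rw [this]
    try simp only [hp3 u]
    push_cast
    ring
  have e7 : ∀ u, X 7 u = ((7 / 16 : ℝ) * ((p 0 u) ^ 2 * p 1 u) + (-109 / 36 : ℝ) * (p 1 u * p 2 u)) * X 0 u + ((59 / 12 : ℝ) * (p 0 u * p 2 u) + (-1 : ℝ) * ((p 0 u) ^ 3) + (85 / 36 : ℝ) * ((p 1 u) ^ 2)) * X 1 u +
      ((35 / 6 : ℝ) * (p 0 u * p 1 u)) * X 2 u := by
    intro u
    have := step hX h3' e6 (u := u)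
      ((((hp 0 u).fun_mul (hp 2 u)).const_mul (-5 / 12 : ℝ)).fun_add (((hp 1 u).fun_pow 2).const_mul (-35 / 36 : ℝ)))
      (((hp 0 u).fun_mul (hp 1 u)).const_mul (10 / 3 : ℝ))
      ((((hp 0 u).fun_pow 2).const_mul (1 : ℝ)).fun_add ((hp 2 u).const_mul (-2 : ℝ)))
    rw [this]
    try simp only [hp3 u]
    push_cast
    ring
  have e8 : ∀ u, X 8 u = ((515 / 144 : ℝ) * (p 0 u * (p 1 u) ^ 2) + (7 / 16 : ℝ) * ((p 0 u) ^ 2 * p 2 u) + (-109 / 36 : ℝ) * ((p 2 u) ^ 2)) * X 0 u + ((-77 / 8 : ℝ) * ((p 0 u) ^ 2 * p 1 u) + (119 / 18 : ℝ) * (p 1 u * p 2 u)) * X 1 u +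
      ((43 / 4 : ℝ) * (p 0 u * p 2 u) + (-1 : ℝ) * ((p 0 u) ^ 3) + (295 / 36 : ℝ) * ((p 1 u) ^ 2)) * X 2 u := by
    intro u
    have := step hX h3' e7 (u := u)
      (((((hp 0 u).fun_pow 2).fun_mul (hp 1 u)).const_mul (7 / 16 : ℝ)).fun_add (((hp 1 u).fun_mul (hp 2 u)).const_mul (-109 / 36 : ℝ)))
      (((((hp 0 u).fun_mul (hp 2 u)).const_mul (59 / 12 : ℝ)).fun_add (((hp 0 u).fun_pow 3).const_mul (-1 : ℝ))).fun_add (((hp 1 u).fun_pow 2).const_mul (85 / 36 : ℝ)))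
      (((hp 0 u).fun_mul (hp 1 u)).const_mul (35 / 6 : ℝ))
    rw [this]
    try simp only [hp3 u]
    push_cast
    ring
  have e9 : ∀ u, X 9 u = ((105 / 8 : ℝ) * (p 0 u * p 1 u * p 2 u) + (-85 / 192 : ℝ) * ((p 0 u) ^ 3 * p 1 u) + (2725 / 432 : ℝ) * ((p 1 u) ^ 3)) * X 0 u + ((-1225 / 48 : ℝ) * (p 0 u * (p 1 u) ^ 2) + (-319 / 16 : ℝ) * ((p 0 u) ^ 2 * p 2 u) + (1 : ℝ) * ((p 0 u) ^ 4) + (43 / 12 : ℝ) * ((p 2 u) ^ 2)) * X 1 u +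
      ((-245 / 16 : ℝ) * ((p 0 u) ^ 2 * p 1 u) + (135 / 4 : ℝ) * (p 1 u * p 2 u)) * X 2 u := by
    intro u
    have := step hX h3' e8 (u := u)
      (((((hp 0 u).fun_mul ((hp 1 u).fun_pow 2)).const_mul (515 / 144 : ℝ)).fun_add ((((hp 0 u).fun_pow 2).fun_mul (hp 2 u)).const_mul (7 / 16 : ℝ))).fun_add (((hp 2 u).fun_pow 2).const_mul (-109 / 36 : ℝ)))
      (((((hp 0 u).fun_pow 2).fun_mul (hp 1 u)).const_mul (-77 / 8 : ℝ)).fun_add (((hp 1 u).fun_mul (hp 2 u)).const_mul (119 / 18 : ℝ)))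
      (((((hp 0 u).fun_mul (hp 2 u)).const_mul (43 / 4 : ℝ)).fun_add (((hp 0 u).fun_pow 3).const_mul (-1 : ℝ))).fun_add (((hp 1 u).fun_pow 2).const_mul (295 / 36 : ℝ)))
    rw [this]
    try simp only [hp3 u]
    push_cast
    ring
  exact ⟨e3, e4, e5, e6, e7, e8, e9⟩

theorem pieceP7 : PieceP7 := by
  intro Λ p hΛ hp hdet hode hp3 hrel u
  have hc := fun i : Fin 3 => chain7 (X := fun k t => Λ k t i) (p := p)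
    (fun k t => jet3_coord hΛ i k t) hp (fun u => hode u i) hp3
  have h := (hrel u).r7
  rw [cB_comb (hdet u) (fun i => (hc i).2.2.2.2.2.2 u), cA_comb (hdet u) (fun i => (hc i).1 u),
    cB_comb (hdet u) (fun i => (hc i).2.2.2.2.1 u), cA_comb (hdet u) (fun i => (hc i).2.1 u),
    cB_comb (hdet u) (fun i => (hc i).2.2.2.1 u), cA_comb (hdet u) (fun i => (hc i).2.2.1 u),
    cB_comb (hdet u) (fun i => (hc i).2.2.1 u), cA_comb (hdet u) (fun i => (hc i).2.2.2.1 u),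
    cB_comb (hdet u) (fun i => (hc i).2.1 u), cA_comb (hdet u) (fun i => (hc i).2.2.2.2.2.1 u)] at h
  linarith

end Pool.Agent.H858.CP
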