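import Pool.Agent.Run7.h858.CP.Basic

set_option autoImplicit false

namespace Pool.Agent.H858.CP

open Real Filter Topology
open scoped ContDiff

theorem jet3_coord {Λ : ℕ → ℝ → Fin 3 → ℝ} (hΛ : Jet3 Λ) (j : Fin 3) (i : ℕ) (t : ℝ) :
    HasDerivAt (fun t => Λ i t j) (Λ (i + 1) t j) t := hasDerivAt_pi.1 (hΛ i t) j

/-- a linear functional of a jet is a jet -/
theorem jet_lin {Λ : ℕ → ℝ → Fin 3 → ℝ} (hΛ : Jet3 Λ) (u c0 c1 c2 : ℝ) :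
    JetR (fun i t => c0 * Λ i (u + t) 0 + c1 * Λ i (u + t) 1 + c2 * Λ i (u + t) 2) := by
  intro i t
  have h : ∀ j, HasDerivAt (fun t => Λ i (u + t) j) (Λ (i + 1) (u + t) j) t := fun j =>
    (jet3_coord hΛ j i (u + t)).comp_const_add u t
  exact (((h 0).const_mul c0).add ((h 1).const_mul c1)).add ((h 2).const_mul c2)

theorem cA_lin (Λ : ℕ → ℝ → Fin 3 → ℝ) (u : ℝ) : ∃ c0 c1 c2 : ℝ, ∀ x, cA Λ u x =
    c0 * x 0 + c1 * x 1 + c2 * x 2 :=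
  ⟨-(Λ 0 u 1 * Λ 2 u 2) + Λ 0 u 2 * Λ 2 u 1, Λ 0 u 0 * Λ 2 u 2 - Λ 0 u 2 * Λ 2 u 0,
    -(Λ 0 u 0 * Λ 2 u 1) + Λ 0 u 1 * Λ 2 u 0, fun x => by simp only [cA, det3]; ring⟩

theorem cB_lin (Λ : ℕ → ℝ → Fin 3 → ℝ) (u : ℝ) : ∃ c0 c1 c2 : ℝ, ∀ x, cB Λ u x =
    c0 * x 0 + c1 * x 1 + c2 * x 2 :=
  ⟨Λ 0 u 1 * Λ 1 u 2 - Λ 0 u 2 * Λ 1 u 1, -(Λ 0 u 0 * Λ 1 u 2) + Λ 0 u 2 * Λ 1 u 0,
    Λ 0 u 0 * Λ 1 u 1 - Λ 0 u 1 * Λ 1 u 0, fun x => by simp only [cB, det3]; ring⟩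

/-- the derivative of the determinant -/
theorem det_three {Λ : ℕ → ℝ → Fin 3 → ℝ} (hΛ : Jet3 Λ)
    (hdet : ∀ u, det3 (Λ 0 u) (Λ 1 u) (Λ 2 u) = 1) (u : ℝ) :
    det3 (Λ 0 u) (Λ 1 u) (Λ 3 u) = 0 := by
  have h := fun i j => jet3_coord hΛ j i u
  have h1 : HasDerivAt (fun u => det3 (Λ 0 u) (Λ 1 u) (Λ 2 u)) (det3 (Λ 0 u) (Λ 1 u) (Λ 3 u)) u := by
    unfold det3
    refine ((((h 0 0).mul (((h 1 1).mul (h 2 2)).sub ((h 1 2).mul (h 2 1)))).sub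
      ((h 0 1).mul (((h 1 0).mul (h 2 2)).sub ((h 1 2).mul (h 2 0))))).add
      ((h 0 2).mul (((h 1 0).mul (h 2 1)).sub ((h 1 1).mul (h 2 0))))).congr_deriv ?_
    simp only [Pi.mul_apply, Pi.sub_apply]
    ring
  have h2 : (fun u => det3 (Λ 0 u) (Λ 1 u) (Λ 2 u)) = fun _ => (1 : ℝ) := funext hdet
  rw [h2] at h1
  exact h1.unique (hasDerivAt_const u 1)

theorem pieceR : PieceR := by
  intro hT Λ hΛ hdet u ⟨m, ε, hε, h⟩
  obtain ⟨a0, a1, a2, ha⟩ := cA_lin Λ u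
  obtain ⟨b0, b1, b2, hb⟩ := cB_lin Λ u
  have jA : JetR (fun i t => cA Λ u (Λ i (u + t))) := by
    have := jet_lin hΛ u a0 a1 a2
    simpa only [← ha] using this
  have jB : JetR (fun i t => cB Λ u (Λ i (u + t))) := by
    have := jet_lin hΛ u b0 b1 b2
    simpa only [← hb] using this
  have hd := hdet u
  have hd3 := det_three hΛ hdet u
  obtain ⟨r3, r5, r7⟩ := hT _ _ jA jB (by simp only [add_zero, cA, det3]; ring)
    (by simp only [add_zero, cA]; exact hd) (by simp only [add_zero, cA, det3]; ring)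
    (by simp only [add_zero, cB, det3]; ring) (by simp only [add_zero, cB, det3]; ring)
    (by simp only [add_zero, cB]; exact hd) (by simp only [add_zero, cB]; exact hd3) m ε hε
    (fun t h1 h2 => by
      have := h t h1 h2
      simpa only [← sub_eq_add_neg] using this)
  simp only [add_zero] at r3 r5 r7
  exact ⟨r3, r5, r7⟩

end Pool.Agent.H858.CP
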