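import Pool.Agent.Run7.h858.CP.R

set_option autoImplicit false

namespace Pool.Agent.H858.CP

open Real Filter Topology
open scoped ContDiff

/-- one differentiation in the frame -/
theorem step {X : ℕ → ℝ → ℝ} (hX : JetR X) {p q : ℝ → ℝ}
    (h3 : ∀ u, X 3 u = -(p u) * X 1 u - q u * X 0 u) {k : ℕ} {a b c : ℝ → ℝ}
    (hk : ∀ u, X k u = a u * X 0 u + b u * X 1 u + c u * X 2 u) {u a' b' c' : ℝ}
    (ha : HasDerivAt a a' u) (hb : HasDerivAt b b' u) (hc : HasDerivAt c c' u) :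
    X (k + 1) u = (a' - q u * c u) * X 0 u + (a u + b' - p u * c u) * X 1 u
      + (b u + c') * X 2 u := by
  have h1 : HasDerivAt (fun u => a u * X 0 u + b u * X 1 u + c u * X 2 u)
      ((a' * X 0 u + a u * X 1 u) + (b' * X 1 u + b u * X 2 u) + (c' * X 2 u + c u * X 3 u)) u :=
    ((ha.fun_mul (hX 0 u)).fun_add (hb.fun_mul (hX 1 u))).fun_add (hc.fun_mul (hX 2 u))
  have h2 := hX k u
  rw [show X k = fun u => a u * X 0 u + b u * X 1 u + c u * X 2 u from funext hk] at h2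
  rw [h2.unique h1, h3 u]
  ring

theorem cA_comb {Λ : ℕ → ℝ → Fin 3 → ℝ} {u : ℝ} (hdet : det3 (Λ 0 u) (Λ 1 u) (Λ 2 u) = 1)
    {x : Fin 3 → ℝ} {a b c : ℝ} (h : ∀ i, x i = a * Λ 0 u i + b * Λ 1 u i + c * Λ 2 u i) :
    cA Λ u x = b := by
  have : cA Λ u x = b * det3 (Λ 0 u) (Λ 1 u) (Λ 2 u) := by
    simp only [cA, det3, h]
    ring
  rw [this, hdet, mul_one]

theorem cB_comb {Λ : ℕ → ℝ → Fin 3 → ℝ} {u : ℝ} (hdet : det3 (Λ 0 u) (Λ 1 u) (Λ 2 u) = 1)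
    {x : Fin 3 → ℝ} {a b c : ℝ} (h : ∀ i, x i = a * Λ 0 u i + b * Λ 1 u i + c * Λ 2 u i) :
    cB Λ u x = c := by
  have : cB Λ u x = c * det3 (Λ 0 u) (Λ 1 u) (Λ 2 u) := by
    simp only [cB, det3, h]
    ring
  rw [this, hdet, mul_one]

end Pool.Agent.H858.CP
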