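import Pool.Agent.Run7.h858.CP.Basic

set_option autoImplicit false

namespace Pool.Agent.H858.CP

open Real Filter Topology
open scoped ContDiff

theorem jet_iter {f : ℕ → ℝ → ℝ} (hf : JetR f) (n : ℕ) : iteratedDeriv n (f 0) = f n := by
  induction n with
  | zero => simp
  | succ n ih =>
    rw [iteratedDeriv_succ, ih]
    funext t
    exact (hf n t).deriv

theorem jet_contDiff {f : ℕ → ℝ → ℝ} (hf : JetR f) : ContDiff ℝ ∞ (f 0) := by
  refine contDiff_of_differentiable_iteratedDeriv fun m _ => ?_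
  rw [jet_iter hf]
  exact fun t => (hf m t).differentiableAt

/-- derivative of `f t * g (-t)` at `0` -/
theorem leib {f g : ℕ → ℝ → ℝ} (hf : JetR f) (hg : JetR g) (n : ℕ) :
    iteratedDeriv n (fun t => f 0 t * g 0 (-t)) 0 =
      ∑ i ∈ Finset.range (n + 1), (n.choose i : ℝ) * f i 0 * ((-1) ^ (n - i) * g (n - i) 0) := by
  have h1 : ContDiffAt ℝ n (f 0) 0 := ((jet_contDiff hf).of_le (by exact_mod_cast le_top)).contDiffAt
  have h2 : ContDiffAt ℝ n (fun t => g 0 (-t)) 0 :=
    (((jet_contDiff hg).of_le (by exact_mod_cast le_top)).comp contDiff_neg).contDiffAt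
  rw [iteratedDeriv_fun_mul h1 h2]
  refine Finset.sum_congr rfl fun i _ => ?_
  rw [iteratedDeriv_comp_neg, jet_iter hf, jet_iter hg]
  simp

theorem leib' {f g : ℕ → ℝ → ℝ} (hf : JetR f) (hg : JetR g) (n : ℕ) :
    iteratedDeriv n (fun t => f 0 (-t) * g 0 t) 0 =
      ∑ i ∈ Finset.range (n + 1), (n.choose i : ℝ) * ((-1) ^ i * f i 0) * (g (n - i) 0) := by
  have h1 : ContDiffAt ℝ n (g 0) 0 := ((jet_contDiff hg).of_le (by exact_mod_cast le_top)).contDiffAt
  have h2 : ContDiffAt ℝ n (fun t => f 0 (-t)) 0 :=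
    (((jet_contDiff hf).of_le (by exact_mod_cast le_top)).comp contDiff_neg).contDiffAt
  rw [iteratedDeriv_fun_mul h2 h1]
  refine Finset.sum_congr rfl fun i _ => ?_
  rw [iteratedDeriv_comp_neg, jet_iter hf, jet_iter hg]
  simp

theorem pieceT : PieceT := by
  intro A B hA hB a0 a1 a2 b0 b1 b2 b3 m ε hε h
  have hG : (fun t => A 0 t * B 0 (-t) + A 0 (-t) * B 0 t - m * (B 0 t * B 0 (-t)))
      =ᶠ[𝓝 0] fun _ => (0 : ℝ) := by
    filter_upwards [Ioo_mem_nhds (neg_lt_zero.2 hε) hε] with t ht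
    rcases lt_trichotomy t 0 with h1 | h1 | h1
    · have := h (-t) (by linarith) (by linarith [ht.1])
      rw [neg_neg] at this
      linarith
    · subst h1
      simp [a0, b0]
    · have := h t h1 ht.2
      linarith
  have key : ∀ n : ℕ,
      (∑ i ∈ Finset.range (n + 1), (n.choose i : ℝ) * A i 0 * ((-1) ^ (n - i) * B (n - i) 0))
      + (∑ i ∈ Finset.range (n + 1), (n.choose i : ℝ) * ((-1) ^ i * A i 0) * (B (n - i) 0))
      - m * (∑ i ∈ Finset.range (n + 1), (n.choose i : ℝ) * B i 0 * ((-1) ^ (n - i) * B (n - i) 0))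
      = 0 := by
    intro n
    have e := hG.iteratedDeriv_eq n
    have c1 : ContDiffAt ℝ n (fun t => A 0 t * B 0 (-t)) 0 :=
      ((((jet_contDiff hA).mul ((jet_contDiff hB).comp contDiff_neg))).of_le
        (by exact_mod_cast le_top)).contDiffAt
    have c2 : ContDiffAt ℝ n (fun t => A 0 (-t) * B 0 t) 0 :=
      (((((jet_contDiff hA).comp contDiff_neg)).mul (jet_contDiff hB)).of_le
        (by exact_mod_cast le_top)).contDiffAt
    have c3 : ContDiffAt ℝ n (fun t => B 0 t * B 0 (-t)) 0 :=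
      ((((jet_contDiff hB).mul ((jet_contDiff hB).comp contDiff_neg))).of_le
        (by exact_mod_cast le_top)).contDiffAt
    rw [iteratedDeriv_fun_sub (c1.add c2) (contDiffAt_const.mul c3), iteratedDeriv_fun_add c1 c2,
      iteratedDeriv_const_mul_field, leib hA hB, leib' hA hB, leib hB hB] at e
    rw [e]
    simp
  have k4 := key 4
  have k6 := key 6
  have k8 := key 8
  have k10 := key 10
  simp only [Finset.sum_range_succ, Finset.sum_range_zero, Nat.choose, Nat.cast_ofNat, Nat.cast_one,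
    a0, a1, a2, b0, b1, b2, b3, Nat.sub_zero, Nat.reduceSub, Nat.reduceAdd, Nat.sub_self] at k4 k6 k8 k10
  norm_num [b0, b1, b2, b3] at k4 k6 k8 k10
  have hm : m = 0 := by linarith
  subst hm
  refine ⟨by linarith, by linarith, by linarith⟩

end Pool.Agent.H858.CP
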